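import Pool.Agent.Y183.BU.Der

/-!
Asymptotics (project BU of helper858, task MODEL).
-/

set_option autoImplicit false

namespace Pool.Agent.Y183.BU

open Set Filter Topology

/-- `log` near `1` -/
lemma abs_log_le {r u : ℝ} (hu : 0 ≤ u) (hu2 : u ≤ 1 / 2) (h1 : 1 - u ≤ r) (h2 : r ≤ 1 + u) :
    |Real.log r| ≤ 2 * u := by
  have hr : 0 < r := by linarith
  rw [abs_le]
  constructor
  · have h3 := Real.one_sub_inv_le_log_of_pos hr
    have h4 : -(2 * u) ≤ 1 - r⁻¹ := by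
      have : r⁻¹ ≤ 1 + 2 * u := by
        rw [inv_le_comm₀ hr (by linarith)]
        refine le_trans ?_ h1
        rw [inv_le_iff_one_le_mul₀ (by linarith)]
        nlinarith
      linarith
    linarith
  · have h3 := Real.log_le_sub_one_of_pos hr
    linarith

/-- behaviour at infinity -/
lemma asym_inf {m : ℝ} (hm : 0 < m) {ε : ℝ} (hε : 0 < ε) : ∃ M : ℝ, ∀ X : ℂ, X ≠ 0 → X ≠ 1 →
    M ≤ Real.log ‖X‖ + m * Real.log ‖1 - X‖ →
    |Real.log ‖X‖ - (Real.log ‖X‖ + m * Real.log ‖1 - X‖) / (m + 1)| ≤ ε := by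
  refine ⟨(m + 1) * Real.log (1 + (2 + 2 / ε)), fun X h0 h1 hM => ?_⟩
  have n0 : 0 < ‖X‖ := norm_pos_iff.2 h0
  have n1 : 0 < ‖1 - X‖ := norm_pos_iff.2 (sub_ne_zero.2 (Ne.symm h1))
  have t1 : ‖1 - X‖ ≤ 1 + ‖X‖ := by simpa using norm_sub_le 1 X
  have t2 : ‖X‖ - 1 ≤ ‖1 - X‖ := by
    have := norm_sub_norm_le X 1
    rw [norm_sub_rev] at this
    simpa using this
  have hbig : 2 + 2 / ε ≤ ‖X‖ := by
    have a : Real.log ‖1 - X‖ ≤ Real.log (1 + ‖X‖) := Real.log_le_log n1 t1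
    have b : Real.log ‖X‖ ≤ Real.log (1 + ‖X‖) := Real.log_le_log n0 (by linarith)
    have c : (m + 1) * Real.log (1 + (2 + 2 / ε)) ≤ (m + 1) * Real.log (1 + ‖X‖) := by
      nlinarith
    have d := le_of_mul_le_mul_left c (by linarith)
    have e := (Real.log_le_log_iff (by positivity) (by positivity)).1 d
    linarith
  have hX2 : 2 ≤ ‖X‖ := le_trans (by have : 0 < 2 / ε := by positivity
                                     linarith) hbig
  have key : |Real.log (‖1 - X‖ / ‖X‖)| ≤ 2 * (1 / ‖X‖) := by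
    refine abs_log_le (by positivity) ?_ ?_ ?_
    · rw [div_le_div_iff₀ n0 (by norm_num)]
      linarith
    · rw [le_div_iff₀ n0]
      have : (1 - 1 / ‖X‖) * ‖X‖ = ‖X‖ - 1 := by field_simp
      linarith
    · rw [div_le_iff₀ n0]
      have : (1 + 1 / ‖X‖) * ‖X‖ = ‖X‖ + 1 := by field_simp
      linarith
  rw [Real.log_div n1.ne' n0.ne'] at key
  have e1 : Real.log ‖X‖ - (Real.log ‖X‖ + m * Real.log ‖1 - X‖) / (m + 1) =
      (m / (m + 1)) * (-(Real.log ‖1 - X‖ - Real.log ‖X‖)) := by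
    field_simp
    ring
  rw [e1, abs_mul, abs_neg, abs_of_pos (by positivity)]
  have hm1 : m / (m + 1) ≤ 1 := by
    rw [div_le_one (by linarith)]
    linarith
  have h3 : 2 * (1 / ‖X‖) ≤ ε := by
    rw [mul_one_div, div_le_iff₀ n0]
    have : 2 / ε ≤ ‖X‖ := by linarith
    rw [div_le_iff₀ hε] at this
    linarith
  have h4 : 0 ≤ |Real.log ‖1 - X‖ - Real.log ‖X‖| := abs_nonneg _
  calc m / (m + 1) * |Real.log ‖1 - X‖ - Real.log ‖X‖|
      ≤ 1 * |Real.log ‖1 - X‖ - Real.log ‖X‖| := mul_le_mul_of_nonneg_right hm1 h4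
    _ ≤ ε := by linarith

/-- behaviour at `0` -/
lemma asym_zero {m : ℝ} (hm : 0 < m) {ε : ℝ} (hε : 0 < ε) : ∃ M : ℝ, ∀ X : ℂ, X ∈ D 1 m →
    Real.log ‖X‖ + m * Real.log ‖1 - X‖ ≤ -M →
    |Real.log ‖X‖ - (Real.log ‖X‖ + m * Real.log ‖1 - X‖)| ≤ ε := by
  set δ := del 1 m
  have hδ : 0 < δ := del_pos one_pos hm
  set ρ : ℝ := min (1 / 2) (ε / (2 * m)) with hρ
  have ρ0 : 0 < ρ := by positivity
  refine ⟨-Real.log ρ - m * Real.log δ, fun X hX hM => ?_⟩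
  have n0 : 0 < ‖X‖ := norm_pos_iff.2 hX.2.1
  have hd : δ ≤ ‖1 - X‖ := del_le one_pos hm hX
  have n1 : 0 < ‖1 - X‖ := hδ.trans_le hd
  have hsm : ‖X‖ ≤ ρ := by
    have a : Real.log δ ≤ Real.log ‖1 - X‖ := Real.log_le_log hδ hd
    have b : Real.log ‖X‖ ≤ Real.log ρ := by nlinarith
    exact (Real.log_le_log_iff n0 ρ0).1 b
  have h1 : ‖X‖ ≤ 1 / 2 := hsm.trans (min_le_left _ _)
  have h2 : ‖X‖ ≤ ε / (2 * m) := hsm.trans (min_le_right _ _)
  have t1 : ‖1 - X‖ ≤ 1 + ‖X‖ := by simpa using norm_sub_le 1 X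
  have t2 : 1 - ‖X‖ ≤ ‖1 - X‖ := by simpa using norm_sub_norm_le 1 X
  have key := abs_log_le n0.le h1 t2 t1
  have e1 : Real.log ‖X‖ - (Real.log ‖X‖ + m * Real.log ‖1 - X‖) = -(m * Real.log ‖1 - X‖) := by
    ring
  rw [e1, abs_neg, abs_mul, abs_of_pos hm]
  rw [le_div_iff₀ (by positivity)] at h2
  nlinarith

end Pool.Agent.Y183.BU
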