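import Mathlib

/-!
The map `p log X + q log (1 - X)` on the closed upper half plane (project BU of helper858, task
MODEL): its inverse on the part where the imaginary part is nonnegative.
-/

set_option autoImplicit false

namespace Pool.Agent.Y183.BU

open Set Filter Topology
open scoped ComplexConjugate

/-- `p log X + q log (1 - X)` on the closed upper half plane -/
noncomputable def F (p q : ℝ) (X : ℂ) : ℂ :=
  p * Complex.log X + q * conj (Complex.log (1 - conj X))

lemma F_re (p q : ℝ) (X : ℂ) : (F p q X).re = p * Real.log ‖X‖ + q * Real.log ‖1 - X‖ := by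
  have h : ‖1 - conj X‖ = ‖1 - X‖ := by
    have : (1 - conj X) = conj (1 - X) := by simp
    rw [this, RCLike.norm_conj]
  simp [F, Complex.log_re, h]

lemma F_im (p q : ℝ) (X : ℂ) : (F p q X).im = p * Complex.arg X - q * Complex.arg (1 - conj X) := by
  simp [F, Complex.log_im]
  ring

/-- the closed upper half plane without `0` and `1` -/
def H0 : Set ℂ := {X | 0 ≤ X.im ∧ X ≠ 0 ∧ X ≠ 1}

lemma log_cont : ContinuousOn Complex.log {z : ℂ | 0 ≤ z.im ∧ z ≠ 0} := by
  intro z hz
  by_cases h : z ∈ Complex.slitPlane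
  · exact (continuousAt_clog h).continuousWithinAt
  · rw [Complex.mem_slitPlane_iff] at h
    push Not at h
    have him : z.im = 0 := h.2
    have hre : z.re < 0 := by
      rcases lt_or_eq_of_le h.1 with h1 | h1
      · exact h1
      · exact absurd (Complex.ext (by simpa using h1) (by simpa using him)) hz.2
    exact (Complex.continuousWithinAt_log_of_re_neg_of_im_zero hre him).mono fun w hw => hw.1

lemma F_cont (p q : ℝ) : ContinuousOn (F p q) H0 := by
  unfold F
  refine (continuousOn_const.mul (log_cont.mono fun X hX => ⟨hX.1, hX.2.1⟩)).add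
    (continuousOn_const.mul ?_)
  refine Complex.continuous_conj.comp_continuousOn ?_
  refine log_cont.comp (Continuous.continuousOn (by fun_prop)) ?_
  intro X hX
  refine ⟨by simpa using hX.1, ?_⟩
  intro h
  apply hX.2.2
  have h1 : conj X = 1 := by linear_combination -h
  have := congrArg conj h1
  simpa using this

/-- derivative of `F` -/
noncomputable def F' (p q : ℝ) (X : ℂ) : ℂ := p / X - q / (1 - X)

lemma F_eq (p q : ℝ) {X : ℂ} (hX : 0 < X.im) :
    F p q X = p * Complex.log X + q * Complex.log (1 - X) := by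
  unfold F
  congr 2
  have h : (1 - conj X) = conj (1 - X) := by simp
  have h2 : (1 - X).arg ≠ Real.pi := by
    intro h3
    rw [Complex.arg_eq_pi_iff] at h3
    have := h3.2
    simp at this
    linarith
  rw [h, Complex.log_conj _ h2, Complex.conj_conj]

lemma one_sub_ne {X : ℂ} (hX : 0 < X.im) : 1 - X ≠ 0 := by
  intro h
  have := congrArg Complex.im h
  simp at this
  linarith

lemma ne_zero_of_im {X : ℂ} (hX : 0 < X.im) : X ≠ 0 := by
  rintro rfl
  simp at hX

lemma mem_slit {X : ℂ} (hX : 0 < X.im) : X ∈ Complex.slitPlane := Or.inr hX.ne'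

lemma mem_slit' {X : ℂ} (hX : 0 < X.im) : 1 - X ∈ Complex.slitPlane := by
  right
  simp
  exact hX.ne'

lemma F_der (p q : ℝ) {X : ℂ} (hX : 0 < X.im) : HasDerivAt (F p q) (F' p q X) X := by
  have h1 : HasDerivAt (fun X : ℂ => (p : ℂ) * Complex.log X + q * Complex.log (1 - X))
      (F' p q X) X := by
    have a := (Complex.hasDerivAt_log (mem_slit hX)).const_mul (p : ℂ)
    have b := ((Complex.hasDerivAt_log (mem_slit' hX)).comp X
      ((hasDerivAt_id X).const_sub 1)).const_mul (q : ℂ)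
    refine (a.add b).congr_deriv ?_
    unfold F'
    have := one_sub_ne hX
    have := ne_zero_of_im hX
    field_simp
    ring
  refine h1.congr_of_eventuallyEq ?_
  have : {X : ℂ | 0 < X.im} ∈ 𝓝 X := (isOpen_lt continuous_const Complex.continuous_im).mem_nhds hX
  filter_upwards [this] with Y hY
  exact F_eq p q hY

lemma F'_im {p q : ℝ} (hp : 0 < p) (hq : 0 < q) {X : ℂ} (hX : 0 < X.im) : (F' p q X).im < 0 := by
  have h0 := ne_zero_of_im hX
  have h1 := one_sub_ne hX
  have n0 : 0 < Complex.normSq X := Complex.normSq_pos.2 h0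
  have n1 : 0 < Complex.normSq (1 - X) := Complex.normSq_pos.2 h1
  have e : (F' p q X).im = -(p * X.im / Complex.normSq X) - q * X.im / Complex.normSq (1 - X) := by
    unfold F'
    simp [Complex.div_im]
    ring
  rw [e]
  have a : 0 < p * X.im / Complex.normSq X := by positivity
  have b : 0 < q * X.im / Complex.normSq (1 - X) := by positivity
  linarith

lemma F'_ne {p q : ℝ} (hp : 0 < p) (hq : 0 < q) {X : ℂ} (hX : 0 < X.im) : F' p q X ≠ 0 := by
  intro h
  have := F'_im hp hq hX
  rw [h] at this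
  simp at this

/-- if `X` is in the upper half plane and closer to `1` in a suitable sense, then `Im F < 0` -/
lemma im_neg {p q : ℝ} (hp : 0 < p) (hq : 0 < q) {X : ℂ} (h1 : 0 < X.im) (h2 : 0 < X.re)
    (h3 : p * ‖1 - X‖ < q * X.re) : (F p q X).im < 0 := by
  rw [F_im]
  have n1 : 0 < ‖1 - X‖ := norm_pos_iff.2 (one_sub_ne h1)
  have a1 : Complex.arg X ≤ X.im / X.re := by
    have b1 : 0 ≤ Complex.arg X := Complex.arg_nonneg_iff.2 h1.le
    have b2 : Complex.arg X < Real.pi / 2 := by
      have := Complex.abs_arg_lt_pi_div_two_iff.2 (Or.inl h2 : 0 < X.re ∨ X = 0)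
      exact (abs_lt.1 this).2
    rw [← Complex.tan_arg]
    exact Real.le_tan b1 b2
  have a2 : X.im / ‖1 - X‖ ≤ Complex.arg (1 - conj X) := by
    have e1 : ‖1 - conj X‖ = ‖1 - X‖ := by
      have : (1 - conj X) = conj (1 - X) := by simp
      rw [this, RCLike.norm_conj]
    have e2 : (1 - conj X).im = X.im := by simp
    have b1 : 0 ≤ Complex.arg (1 - conj X) := Complex.arg_nonneg_iff.2 (by rw [e2]; exact h1.le)
    have := Real.sin_le b1
    rwa [Complex.sin_arg, e1, e2] at this
  have a3 : p * (X.im / X.re) < q * (X.im / ‖1 - X‖) := by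
    rw [← mul_div_assoc, ← mul_div_assoc, div_lt_div_iff₀ h2 n1]
    nlinarith
  nlinarith

/-- the domain -/
def D (p q : ℝ) : Set ℂ :=
  {X | 0 ≤ X.im ∧ X ≠ 0 ∧ 0 ≤ (F p q X).im ∧ (X.im = 0 → X.re ≤ p / (p + q))}

lemma c_lt {p q : ℝ} (hp : 0 < p) (hq : 0 < q) : p / (p + q) < 1 := by
  rw [div_lt_one (by linarith)]
  linarith

lemma c_pos {p q : ℝ} (hp : 0 < p) (hq : 0 < q) : 0 < p / (p + q) := by positivity

lemma D_ne_one {p q : ℝ} (hp : 0 < p) (hq : 0 < q) {X : ℂ} (hX : X ∈ D p q) : X ≠ 1 := by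
  rintro rfl
  have := hX.2.2.2 (by simp)
  have h := c_lt hp hq
  simp at this
  linarith

lemma D_sub {p q : ℝ} (hp : 0 < p) (hq : 0 < q) : D p q ⊆ H0 := fun X hX =>
  ⟨hX.1, hX.2.1, D_ne_one hp hq hX⟩

/-- distance from `1` -/
noncomputable def del (p q : ℝ) : ℝ := min (min (1 / 2) (q / (2 * p))) (q / (p + q))

lemma del_pos {p q : ℝ} (hp : 0 < p) (hq : 0 < q) : 0 < del p q := by
  unfold del
  positivity

lemma del_le {p q : ℝ} (hp : 0 < p) (hq : 0 < q) {X : ℂ} (hX : X ∈ D p q) :
    del p q ≤ ‖1 - X‖ := by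
  rcases lt_or_eq_of_le hX.1 with h | h
  · by_contra hc
    push Not at hc
    have c1 : ‖1 - X‖ < 1 / 2 := lt_of_lt_of_le hc ((min_le_left _ _).trans (min_le_left _ _))
    have c2 : ‖1 - X‖ < q / (2 * p) := lt_of_lt_of_le hc ((min_le_left _ _).trans (min_le_right _ _))
    have c3 : 1 / 2 < X.re := by
      have := (Complex.abs_re_le_norm (1 - X)).trans_lt c1
      rw [abs_lt] at this
      simp at this
      linarith [this.2]
    have c4 : p * ‖1 - X‖ < q * X.re := by
      rw [lt_div_iff₀ (by positivity)] at c2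
      nlinarith
    exact absurd (im_neg hp hq h (by linarith) c4) (not_lt.2 hX.2.2.1)
  · have h1 := hX.2.2.2 h.symm
    have h2 : 1 - X.re ≤ ‖1 - X‖ := by
      have := (le_abs_self _).trans (Complex.abs_re_le_norm (1 - X))
      simpa using this
    refine (min_le_right _ _).trans ?_
    have : q / (p + q) = 1 - p / (p + q) := by field_simp; ring
    linarith

lemma norm_ge {p q : ℝ} (hp : 0 < p) (hq : 0 < q) (M : ℝ) {X : ℂ} (h0 : X ≠ 0)
    (h1 : -M ≤ (F p q X).re) (hX1 : X ≠ 1) :
    min 1 (Real.exp (-(M + q * Real.log 2) / p)) ≤ ‖X‖ := by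
  by_cases hc : 1 ≤ ‖X‖
  · exact (min_le_left _ _).trans hc
  · push Not at hc
    refine (min_le_right _ _).trans ?_
    have n0 : 0 < ‖X‖ := norm_pos_iff.2 h0
    rw [← Real.le_log_iff_exp_le n0]
    rw [F_re] at h1
    have h2 : Real.log ‖1 - X‖ ≤ Real.log 2 := by
      have n1 : 0 < ‖1 - X‖ := norm_pos_iff.2 (sub_ne_zero.2 (Ne.symm hX1))
      refine Real.log_le_log n1 ?_
      refine (norm_sub_le _ _).trans ?_
      simp
      linarith
    rw [div_le_iff₀ hp]
    nlinarith

lemma norm_le {p q : ℝ} (hp : 0 < p) (hq : 0 < q) (M : ℝ) {X : ℂ} {d : ℝ} (hd : 0 < d)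
    (h0 : X ≠ 0) (h1 : (F p q X).re ≤ M) (h2 : d ≤ ‖1 - X‖) :
    ‖X‖ ≤ Real.exp ((M - q * Real.log d) / p) := by
  have n0 : 0 < ‖X‖ := norm_pos_iff.2 h0
  rw [← Real.log_le_iff_le_exp n0, le_div_iff₀ hp]
  rw [F_re] at h1
  have h3 : Real.log d ≤ Real.log ‖1 - X‖ := Real.log_le_log hd h2
  nlinarith

lemma real_im_zero {p q : ℝ} {X : ℂ} (h : X.im = 0) (h1 : 1 < X.re) :
    (F p q X).im = -(q * Real.pi) := by
  have hX : X = ((X.re : ℝ) : ℂ) := Complex.ext (by simp) (by simpa using h)
  rw [F_im, hX]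
  have e1 : Complex.arg ((X.re : ℝ) : ℂ) = 0 := Complex.arg_ofReal_of_nonneg (by linarith)
  have e2 : (1 - conj ((X.re : ℝ) : ℂ)) = ((1 - X.re : ℝ) : ℂ) := by
    push_cast
    rw [Complex.conj_ofReal]
  rw [e1, e2, Complex.arg_ofReal_of_neg (by linarith)]
  ring

/-- the part of `D` over a bounded set is compact -/
lemma compactK {p q : ℝ} (hp : 0 < p) (hq : 0 < q) (M : ℝ) :
    IsCompact {X : ℂ | X ∈ D p q ∧ |(F p q X).re| ≤ M} := by
  set r : ℝ := min 1 (Real.exp (-(M + q * Real.log 2) / p)) with hr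
  set R : ℝ := Real.exp ((M - q * Real.log (del p q)) / p) with hR
  have r0 : 0 < r := by rw [hr]; positivity
  set H : Set ℂ := {X : ℂ | 0 ≤ X.im ∧ r ≤ ‖X‖ ∧ ‖X‖ ≤ R ∧ del p q ≤ ‖1 - X‖} with hH
  have Hc : IsClosed H := by
    refine IsClosed.inter (isClosed_le continuous_const Complex.continuous_im) ?_
    refine IsClosed.inter (isClosed_le continuous_const continuous_norm) ?_
    refine IsClosed.inter (isClosed_le continuous_norm continuous_const) ?_
    exact isClosed_le (f := fun _ : ℂ => del p q) (g := fun X : ℂ => ‖1 - X‖) continuous_const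
      (by fun_prop)
  have Hk : IsCompact H := by
    refine (isCompact_closedBall (0 : ℂ) R).of_isClosed_subset Hc ?_
    intro X hX
    simpa using hX.2.2.1
  have HH0 : H ⊆ H0 := by
    intro X hX
    refine ⟨hX.1, ?_, ?_⟩
    · rintro rfl
      have := hX.2.1
      simp at this
      linarith
    · rintro rfl
      have := hX.2.2.2
      simp at this
      linarith [del_pos hp hq]
  have K1c : IsClosed (H ∩ F p q ⁻¹' {w : ℂ | 0 ≤ w.im ∧ |w.re| ≤ M}) := by
    refine ((F_cont p q).mono HH0).preimage_isClosed_of_isClosed Hc ?_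
    refine IsClosed.inter (isClosed_le continuous_const Complex.continuous_im) ?_
    exact isClosed_le (f := fun w : ℂ => |w.re|) (g := fun _ : ℂ => M) (by fun_prop)
      continuous_const
  have Oo : IsOpen {X : ℂ | p / (p + q) < X.re ∧ p * ‖1 - X‖ < q * X.re} :=
    IsOpen.inter (isOpen_lt continuous_const Complex.continuous_re)
      (isOpen_lt (f := fun X : ℂ => p * ‖1 - X‖) (g := fun X : ℂ => q * X.re) (by fun_prop)
        (by fun_prop))
  have K2 : IsCompact ((H ∩ F p q ⁻¹' {w : ℂ | 0 ≤ w.im ∧ |w.re| ≤ M}) ∩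
      {X : ℂ | p / (p + q) < X.re ∧ p * ‖1 - X‖ < q * X.re}ᶜ) := by
    refine Hk.of_isClosed_subset (K1c.inter Oo.isClosed_compl) ?_
    intro X hX
    exact hX.1.1
  convert K2 using 1
  ext X
  constructor
  · rintro ⟨hD, hM⟩
    have h1 := D_ne_one hp hq hD
    have hM' := abs_le.1 hM
    refine ⟨⟨⟨hD.1, ?_, ?_, del_le hp hq hD⟩, hD.2.2.1, hM⟩, ?_⟩
    · exact norm_ge hp hq M hD.2.1 hM'.1 h1
    · exact norm_le hp hq M (del_pos hp hq) hD.2.1 hM'.2 (del_le hp hq hD)
    · rintro ⟨hc, hO⟩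
      rcases lt_or_eq_of_le hD.1 with h | h
      · exact absurd (im_neg hp hq h ((c_pos hp hq).trans hc) hO) (not_lt.2 hD.2.2.1)
      · linarith [hD.2.2.2 h.symm]
  · rintro ⟨⟨hXH, him, hM⟩, hO⟩
    have hX0 := HH0 hXH
    refine ⟨⟨hX0.1, hX0.2.1, him, ?_⟩, hM⟩
    intro h
    by_contra hc
    push Not at hc
    have hO' : q * X.re ≤ p * ‖1 - X‖ := by
      by_contra h3
      push Not at h3
      exact hO ⟨hc, h3⟩
    have hX : X = ((X.re : ℝ) : ℂ) := Complex.ext (by simp) (by simpa using h)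
    have hn : ‖1 - X‖ = |1 - X.re| := by
      rw [hX]
      have : (1 - ((X.re : ℝ) : ℂ)) = ((1 - X.re : ℝ) : ℂ) := by push_cast; ring
      rw [this, Complex.norm_real, Real.norm_eq_abs]
      simp
    rcases lt_trichotomy X.re 1 with h1 | h1 | h1
    · rw [hn, abs_of_pos (by linarith)] at hO'
      rw [div_lt_iff₀ (by linarith)] at hc
      nlinarith
    · exact hX0.2.2 (Complex.ext (by simpa using h1) (by simpa using h))
    · have := real_im_zero (p := p) (q := q) h h1
      change 0 ≤ (F p q X).im at him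
      have hpi := Real.pi_pos
      nlinarith

end Pool.Agent.Y183.BU
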