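import Pool.Agent.Y183.BU.Inv

/-!
Derivatives and areas (project BU of helper858, task MODEL).
-/

set_option autoImplicit false

namespace Pool.Agent.Y183.BU

open Set Filter Topology MeasureTheory
open scoped ComplexConjugate ENNReal

/-- the affine change of variables -/
noncomputable def em (k κ : ℝ) (p : ℝ × ℝ) : ℂ :=
  ((k * p.1 + κ : ℝ) : ℂ) + ((k * p.2 : ℝ) : ℂ) * Complex.I

lemma em_re (k κ : ℝ) (p : ℝ × ℝ) : (em k κ p).re = k * p.1 + κ := by simp [em]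

lemma em_im (k κ : ℝ) (p : ℝ × ℝ) : (em k κ p).im = k * p.2 := by simp [em]

lemma em_cont (k κ : ℝ) : Continuous (em k κ) := by unfold em; fun_prop

lemma em_inj {k κ : ℝ} (hk : k ≠ 0) {x y : ℝ × ℝ} (h : em k κ x = em k κ y) : x = y := by
  have h1 := congrArg Complex.re h
  have h2 := congrArg Complex.im h
  rw [em_re, em_re] at h1
  rw [em_im, em_im] at h2
  refine Prod.ext ?_ (mul_left_cancel₀ hk h2)
  exact mul_left_cancel₀ hk (by linarith)

/-- linear part of `em` -/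
noncomputable def EL (k : ℝ) : ℝ × ℝ →L[ℝ] ℂ :=
  k • (Complex.ofRealCLM.comp (ContinuousLinearMap.fst ℝ ℝ ℝ)) +
    k • (Complex.I • (Complex.ofRealCLM.comp (ContinuousLinearMap.snd ℝ ℝ ℝ)))

lemma em_der (k κ : ℝ) (p : ℝ × ℝ) : HasFDerivAt (em k κ) (EL k) p := by
  have h : em k κ = fun x => EL k x + (κ : ℂ) := by
    funext x
    apply Complex.ext <;> simp [em, EL]
  rw [h]
  exact (EL k).hasFDerivAt.add_const _

lemma der_pair {L : ℂ → ℂ} {ℓ : ℂ} {k κ : ℝ} (hk : k ≠ 0) {p : ℝ × ℝ}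
    (h : HasDerivAt L ℓ (em k κ p)) :
    HasFDerivAt (fun x : ℝ × ℝ => ((L (em k κ x)).re - κ) / k)
      (ℓ.re • ContinuousLinearMap.fst ℝ ℝ ℝ + (-ℓ.im) • ContinuousLinearMap.snd ℝ ℝ ℝ) p ∧
    HasFDerivAt (fun x : ℝ × ℝ => (L (em k κ x)).im / k)
      (ℓ.im • ContinuousLinearMap.fst ℝ ℝ ℝ + ℓ.re • ContinuousLinearMap.snd ℝ ℝ ℝ) p := by
  have h1 := (h.hasFDerivAt.restrictScalars ℝ).comp p (em_der k κ p)
  constructor
  · have h2 := ((Complex.reCLM.hasFDerivAt.comp p h1).sub_const κ).mul_const k⁻¹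
    simp only [← div_eq_mul_inv] at h2
    refine h2.congr_fderiv ?_
    ext <;> simp [EL] <;> field_simp
  · have h2 := (Complex.imCLM.hasFDerivAt.comp p h1).mul_const k⁻¹
    simp only [← div_eq_mul_inv] at h2
    refine h2.congr_fderiv ?_
    ext <;> simp [EL] <;> field_simp

/-- the matrix of the derivative, `σ = ± 1` -/
noncomputable def dm (σ : ℝ) (ℓ : ℂ) : ℝ × ℝ →L[ℝ] ℝ × ℝ :=
  LinearMap.toContinuousLinearMap (Matrix.toLin (Module.Basis.finTwoProd ℝ)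
    (Module.Basis.finTwoProd ℝ) !![ℓ.re, -ℓ.im; σ * ℓ.im, σ * ℓ.re])

lemma dm_det (σ : ℝ) (hσ : |σ| = 1) (ℓ : ℂ) : |(dm σ ℓ).det| = Complex.normSq ℓ := by
  unfold dm
  simp only [LinearMap.det_toContinuousLinearMap, LinearMap.det_toLin, Matrix.det_fin_two_of]
  have : ℓ.re * (σ * ℓ.re) - -ℓ.im * (σ * ℓ.im) = σ * Complex.normSq ℓ := by
    rw [Complex.normSq_apply]; ring
  rw [this, abs_mul, hσ, one_mul, abs_of_nonneg (Complex.normSq_nonneg _)]

/-- the map to the model strip -/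
noncomputable def Phi (σ : ℝ) (L : ℂ → ℂ) (k κ : ℝ) (x : ℝ × ℝ) : ℝ × ℝ :=
  (((L (em k κ x)).re - κ) / k, σ * ((L (em k κ x)).im / k))

lemma Phi_der (σ : ℝ) {L : ℂ → ℂ} {ℓ : ℂ} {k κ : ℝ} (hk : k ≠ 0) {p : ℝ × ℝ}
    (h : HasDerivAt L ℓ (em k κ p)) : HasFDerivAt (Phi σ L k κ) (dm σ ℓ) p := by
  obtain ⟨a, b⟩ := der_pair hk h
  unfold dm
  rw [Matrix.toLin_finTwoProd_toContinuousLinearMap]
  refine (a.prodMk (b.const_mul σ)).congr_fderiv ?_
  congr 1
  rw [smul_add, smul_smul, smul_smul]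

/-- the energy of an injective holomorphic map is the area of its image -/
lemma energy_eq (σ : ℝ) (hσ : |σ| = 1) {L ℓ : ℂ → ℂ} {k κ : ℝ} (hk : k ≠ 0) {R : Set (ℝ × ℝ)}
    (hR : MeasurableSet R) (h : ∀ p ∈ R, HasDerivAt L (ℓ (em k κ p)) (em k κ p))
    (hinj : InjOn (Phi σ L k κ) R) :
    ∫⁻ p in R, ENNReal.ofReal (Complex.normSq (ℓ (em k κ p))) = volume (Phi σ L k κ '' R) := by
  rw [← lintegral_abs_det_fderiv_eq_addHaar_image volume hR
    (fun p hp => (Phi_der σ hk (h p hp)).hasFDerivWithinAt) hinj]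
  refine setLIntegral_congr_fun hR ?_
  intro p _
  simp only [dm_det σ hσ]

/-- derivative of the inverse -/
lemma Z_der {p q : ℝ} (hp : 0 < p) (hq : 0 < q) {Z : ℂ → ℂ} (hc : Continuous Z)
    (hZ : ∀ η : ℂ, 0 ≤ η.im → η.im ≤ p * Real.pi → Z η ∈ D p q ∧ F p q (Z η) = η)
    {η : ℂ} (h0 : 0 < η.im) (h1 : η.im < p * Real.pi) :
    0 < (Z η).im ∧ HasDerivAt Z (F' p q (Z η))⁻¹ η := by
  obtain ⟨a, b⟩ := hZ η h0.le h1.le
  have him : 0 < (Z η).im := by
    rcases lt_or_eq_of_le a.1 with h | h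
    · exact h
    · exfalso
      have h := h.symm
      have hc := c_lt hp hq
      have cX := a.2.2.2 h
      rcases lt_or_gt_of_ne (re_ne h a.2.1) with h3 | h3
      · rw [← b, real_im_neg h h3] at h1
        exact lt_irrefl _ h1
      · rw [← b, real_im h (by linarith) h3] at h0
        exact lt_irrefl _ h0
  refine ⟨him, HasDerivAt.of_local_left_inverse hc.continuousAt (F_der p q him)
    (F'_ne hp hq him) ?_⟩
  have ho : IsOpen {w : ℂ | 0 < w.im ∧ w.im < p * Real.pi} :=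
    (isOpen_lt continuous_const Complex.continuous_im).inter
      (isOpen_lt Complex.continuous_im continuous_const)
  filter_upwards [ho.mem_nhds ⟨h0, h1⟩] with w hw
  exact (hZ w hw.1.le hw.2.le).2

lemma F_symm (p q : ℝ) (X : ℂ) : F q p (1 - conj X) = conj (F p q X) := by
  unfold F
  simp
  ring

end Pool.Agent.Y183.BU
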