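import Pool.Agent.Y183.BU.Core

/-!
The inverse of `F p q` on `D p q` (project BU of helper858, task MODEL).
-/

set_option autoImplicit false

namespace Pool.Agent.Y183.BU

open Set Filter Topology
open scoped ComplexConjugate

lemma seg_ne {p q : ℝ} (hp : 0 < p) (hq : 0 < q) {X Y : ℂ} (hX : 0 < X.im) (hY : Y ∈ H0)
    (hne : X ≠ Y) : F p q X ≠ F p q Y := by
  intro heq
  set γ : ℝ → ℂ := fun t => Y + t * (X - Y) with hγ
  have him : ∀ t : ℝ, 0 < t → t ≤ 1 → 0 < (γ t).im := by
    intro t h0 h1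
    simp [hγ]
    nlinarith [hY.1]
  have hH : ∀ t ∈ Icc (0 : ℝ) 1, γ t ∈ H0 := by
    intro t ht
    rcases lt_or_eq_of_le ht.1 with h | h
    · have := him t h ht.2
      exact ⟨this.le, ne_zero_of_im this, fun h1 => by rw [h1] at this; simp at this⟩
    · rw [← h]
      simpa [hγ] using hY
  have hsub : X - Y ≠ 0 := sub_ne_zero.2 hne
  set g : ℝ → ℝ := fun t => (F p q (γ t) / (X - Y)).im with hg
  have hder : ∀ t ∈ Ioo (0 : ℝ) 1, HasDerivAt g ((F' p q (γ t)).im) t := by
    intro t ht
    have h1 : HasDerivAt γ (X - Y) t := by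
      have h0 := ((hasDerivAt_id (t : ℝ)).ofReal_comp.mul_const (X - Y)).const_add Y
      rw [Complex.ofReal_one, one_mul] at h0
      exact h0
    have h2 := (F_der p q (him t ht.1 ht.2.le)).scomp t h1
    have h3 := h2.div_const (X - Y)
    have h4 := (Complex.imCLM.hasFDerivAt).comp_hasDerivAt t h3
    have e : ((X - Y) • F' p q (γ t)) / (X - Y) = F' p q (γ t) := by
      rw [smul_eq_mul]
      field_simp
    rw [e] at h4
    exact h4
  have hγc : ContinuousOn γ (Icc 0 1) := Continuous.continuousOn (by fun_prop)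
  have hcont : ContinuousOn g (Icc 0 1) := by
    have h1 : ContinuousOn (fun t => F p q (γ t)) (Icc 0 1) := (F_cont p q).comp hγc hH
    exact Complex.continuous_im.comp_continuousOn (h1.div_const _)
  have hanti : StrictAntiOn g (Icc 0 1) := by
    refine strictAntiOn_of_deriv_neg (convex_Icc 0 1) hcont ?_
    intro t ht
    rw [interior_Icc] at ht
    rw [(hder t ht).deriv]
    exact F'_im hp hq (him t ht.1 ht.2.le)
  have h01 := hanti (left_mem_Icc.2 zero_le_one) (right_mem_Icc.2 zero_le_one) zero_lt_one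
  simp [hg, hγ, heq] at h01

lemma real_re {p q : ℝ} {X : ℂ} (h : X.im = 0) :
    (F p q X).re = p * Real.log |X.re| + q * Real.log |1 - X.re| := by
  have hX : X = ((X.re : ℝ) : ℂ) := Complex.ext (by simp) (by simpa using h)
  rw [F_re, hX]
  have : (1 - ((X.re : ℝ) : ℂ)) = ((1 - X.re : ℝ) : ℂ) := by push_cast; ring
  rw [this, Complex.norm_real, Complex.norm_real, Real.norm_eq_abs, Real.norm_eq_abs]
  simp

lemma real_im {p q : ℝ} {X : ℂ} (h : X.im = 0) (h1 : X.re < 1) (h0 : 0 < X.re) :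
    (F p q X).im = 0 := by
  have hX : X = ((X.re : ℝ) : ℂ) := Complex.ext (by simp) (by simpa using h)
  rw [F_im, hX]
  have e2 : (1 - conj ((X.re : ℝ) : ℂ)) = ((1 - X.re : ℝ) : ℂ) := by
    push_cast
    rw [Complex.conj_ofReal]
  rw [Complex.arg_ofReal_of_nonneg h0.le, e2, Complex.arg_ofReal_of_nonneg (by linarith)]
  ring

lemma real_im_neg {p q : ℝ} {X : ℂ} (h : X.im = 0) (h0 : X.re < 0) :
    (F p q X).im = p * Real.pi := by
  have hX : X = ((X.re : ℝ) : ℂ) := Complex.ext (by simp) (by simpa using h)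
  rw [F_im, hX]
  have e2 : (1 - conj ((X.re : ℝ) : ℂ)) = ((1 - X.re : ℝ) : ℂ) := by
    push_cast
    rw [Complex.conj_ofReal]
  rw [Complex.arg_ofReal_of_neg h0, e2, Complex.arg_ofReal_of_nonneg (by linarith)]
  ring

lemma re_ne {X : ℂ} (h : X.im = 0) (h0 : X ≠ 0) : X.re ≠ 0 := fun h1 =>
  h0 (Complex.ext (by simpa using h1) (by simpa using h))

/-- monotonicity on `(0, c]` -/
lemma mono_pos {p q : ℝ} (hp : 0 < p) (hq : 0 < q) :
    StrictMonoOn (fun u : ℝ => p * Real.log u + q * Real.log (1 - u)) (Ioc 0 (p / (p + q))) := by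
  have hc := c_lt hp hq
  refine strictMonoOn_of_deriv_pos (convex_Ioc _ _) ?_ ?_
  · refine (continuousOn_const.mul (Real.continuousOn_log.mono ?_)).add
      (continuousOn_const.mul (Real.continuousOn_log.comp (by fun_prop) ?_))
    · intro u hu
      simpa using hu.1.ne'
    · intro u hu
      have : 1 - u ≠ 0 := by linarith [hu.2]
      simpa using this
  · intro u hu
    rw [interior_Ioc] at hu
    have h1 : 0 < 1 - u := by linarith [hu.2]
    have d : HasDerivAt (fun u : ℝ => p * Real.log u + q * Real.log (1 - u))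
        (p * u⁻¹ + q * ((1 - u)⁻¹ * (-1))) u := by
      refine ((Real.hasDerivAt_log hu.1.ne').const_mul p).add (HasDerivAt.const_mul q ?_)
      exact (Real.hasDerivAt_log h1.ne').comp u ((hasDerivAt_id u).const_sub 1)
    rw [d.deriv]
    have h2 := hu.2
    rw [lt_div_iff₀ (by linarith)] at h2
    have : p * u⁻¹ + q * ((1 - u)⁻¹ * (-1)) = (p * (1 - u) - q * u) / (u * (1 - u)) := by
      have := hu.1.ne'
      have := h1.ne'
      field_simp
      ring
    rw [this]
    have := hu.1
    apply div_pos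
    · nlinarith
    · positivity

theorem injD {p q : ℝ} (hp : 0 < p) (hq : 0 < q) : InjOn (F p q) (D p q) := by
  intro X hX Y hY h
  by_contra hne
  rcases lt_or_eq_of_le hX.1 with hx | hx
  · exact seg_ne hp hq hx (D_sub hp hq hY) hne h
  rcases lt_or_eq_of_le hY.1 with hy | hy
  · exact seg_ne hp hq hy (D_sub hp hq hX) (Ne.symm hne) h.symm
  have hx := hx.symm
  have hy := hy.symm
  have hc := c_lt hp hq
  have cX := hX.2.2.2 hx
  have cY := hY.2.2.2 hy
  have nX := re_ne hx hX.2.1
  have nY := re_ne hy hY.2.1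
  have hre := congrArg Complex.re h
  have him := congrArg Complex.im h
  have hpi := Real.pi_pos
  have hpp : 0 < p * Real.pi := by positivity
  apply hne
  refine Complex.ext ?_ (by rw [hx, hy])
  rcases lt_or_gt_of_ne nX with h1 | h1 <;> rcases lt_or_gt_of_ne nY with h2 | h2
  · rw [real_re hx, real_re hy, abs_of_neg h1, abs_of_neg h2, abs_of_pos (by linarith),
      abs_of_pos (by linarith)] at hre
    rcases lt_trichotomy X.re Y.re with h3 | h3 | h3
    · have a := Real.log_lt_log (by linarith : 0 < -Y.re) (by linarith : -Y.re < -X.re)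
      have b := Real.log_lt_log (by linarith : 0 < 1 - Y.re) (by linarith : 1 - Y.re < 1 - X.re)
      nlinarith
    · exact h3
    · have a := Real.log_lt_log (by linarith : 0 < -X.re) (by linarith : -X.re < -Y.re)
      have b := Real.log_lt_log (by linarith : 0 < 1 - X.re) (by linarith : 1 - X.re < 1 - Y.re)
      nlinarith
  · rw [real_im_neg hx h1, real_im hy (by linarith) h2] at him
    linarith
  · rw [real_im_neg hy h2, real_im hx (by linarith) h1] at him
    linarith
  · rw [real_re hx, real_re hy, abs_of_pos h1, abs_of_pos h2, abs_of_pos (by linarith),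
      abs_of_pos (by linarith)] at hre
    exact (mono_pos hp hq).injOn ⟨h1, cX⟩ ⟨h2, cY⟩ hre

/-- the set over a bounded set -/
def K (p q M : ℝ) : Set ℂ := {X : ℂ | X ∈ D p q ∧ |(F p q X).re| ≤ M}

lemma contK {p q : ℝ} (hp : 0 < p) (hq : 0 < q) (M : ℝ) : ContinuousOn (F p q) (K p q M) :=
  (F_cont p q).mono fun _ hX => D_sub hp hq hX.1

lemma closedImage {p q : ℝ} (hp : 0 < p) (hq : 0 < q) : closure (F p q '' D p q) ⊆ F p q '' D p q := by
  intro η hη
  set M : ℝ := |η.re| + 1
  have ho : IsOpen {w : ℂ | |w.re| < M} := isOpen_lt (by fun_prop) continuous_const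
  have h1 : η ∈ closure ({w : ℂ | |w.re| < M} ∩ F p q '' D p q) :=
    ho.inter_closure ⟨by simp [M], hη⟩
  have hc : IsClosed (F p q '' K p q M) := ((compactK hp hq M).image_of_continuousOn
    (contK hp hq M)).isClosed
  have h2 : ({w : ℂ | |w.re| < M} ∩ F p q '' D p q) ⊆ F p q '' K p q M := by
    rintro w ⟨hw, X, hX, rfl⟩
    exact ⟨X, ⟨hX, le_of_lt hw⟩, rfl⟩
  obtain ⟨X, hX, h3⟩ := closure_minimal h2 hc h1
  exact ⟨X, hX.1, h3⟩

lemma im_lt {p q : ℝ} (hp : 0 < p) (hq : 0 < q) {X : ℂ} (hX : 0 < X.im) :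
    (F p q X).im < p * Real.pi := by
  rw [F_im]
  have a1 : Complex.arg X < Real.pi := by
    refine lt_of_le_of_ne (Complex.arg_le_pi X) ?_
    intro h
    rw [Complex.arg_eq_pi_iff] at h
    linarith [h.2]
  have a2 : 0 ≤ Complex.arg (1 - conj X) := Complex.arg_nonneg_iff.2 (by simpa using hX.le)
  nlinarith

theorem surj {p q : ℝ} (hp : 0 < p) (hq : 0 < q) {η : ℂ} (h0 : 0 ≤ η.im) (h1 : η.im ≤ p * Real.pi) :
    η ∈ F p q '' D p q := by
  set W : Set ℂ := {η : ℂ | 0 < η.im ∧ η.im < p * Real.pi} with hW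
  set U0 : Set ℂ := {X : ℂ | 0 < X.im} ∩ F p q ⁻¹' {w : ℂ | 0 < w.im} with hU0
  have oH : IsOpen {X : ℂ | 0 < X.im} := isOpen_lt continuous_const Complex.continuous_im
  have dF : DifferentiableOn ℂ (F p q) {X : ℂ | 0 < X.im} := fun X hX =>
    (F_der p q hX).differentiableAt.differentiableWithinAt
  have oU0 : IsOpen U0 := dF.continuousOn.isOpen_inter_preimage oH
    (isOpen_lt continuous_const Complex.continuous_im)
  have U0D : U0 ⊆ D p q := by
    rintro X ⟨hX1, hX2⟩
    refine ⟨le_of_lt hX1, ne_zero_of_im hX1, le_of_lt hX2, fun h => ?_⟩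
    change 0 < X.im at hX1
    linarith
  have ou : IsOpen (F p q '' U0) := by
    rw [isOpen_iff_mem_nhds]
    rintro _ ⟨X, hX, rfl⟩
    have hs : HasStrictDerivAt (F p q) (F' p q X) X := by
      have ha : AnalyticAt ℂ (F p q) X := dF.analyticAt (oH.mem_nhds hX.1)
      have := ha.hasStrictDerivAt
      rwa [(F_der p q hX.1).deriv] at this
    rw [← hs.map_nhds_eq (F'_ne hp hq hX.1)]
    exact image_mem_map (oU0.mem_nhds hX)
  have hpi := Real.pi_pos
  have hWsub : W ⊆ F p q '' U0 := by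
    refine IsPreconnected.subset_of_closure_inter_subset ?_ ou ?_ ?_
    · have : Convex ℝ W := by
        have a : Convex ℝ {η : ℂ | 0 < η.im} := convex_halfSpace_im_gt 0
        have b : Convex ℝ {η : ℂ | η.im < p * Real.pi} := convex_halfSpace_im_lt _
        exact a.inter b
      exact this.isPreconnected
    · set ε : ℝ := p / (2 * q) with hε
      have e0 : 0 < ε := by positivity
      have i1 : 0 < ((ε : ℂ) * Complex.I).im := by simpa using e0
      have him : 0 < (F p q ((ε : ℂ) * Complex.I)).im := by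
        rw [F_im]
        have a1 : Complex.arg ((ε : ℂ) * Complex.I) = Real.pi / 2 := by
          rw [Complex.arg_real_mul _ e0, Complex.arg_I]
        have a2 : Complex.arg (1 - conj ((ε : ℂ) * Complex.I)) ≤ ε := by
          have e1 : (1 - conj ((ε : ℂ) * Complex.I)) = 1 + ε * Complex.I := by
            simp
          have b0 : 0 ≤ Complex.arg (1 + (ε : ℂ) * Complex.I) :=
            Complex.arg_nonneg_iff.2 (by simpa using e0.le)
          have b1 : Complex.arg (1 + (ε : ℂ) * Complex.I) < Real.pi / 2 := by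
            have := Complex.abs_arg_lt_pi_div_two_iff.2
              (Or.inl (by simp) : 0 < (1 + (ε : ℂ) * Complex.I).re ∨ (1 + (ε : ℂ) * Complex.I) = 0)
            exact (abs_lt.1 this).2
          have b2 := Real.le_tan b0 b1
          rw [Complex.tan_arg] at b2
          rw [e1]
          simpa using b2
        rw [a1]
        have a3 : q * ε = p / 2 := by rw [hε]; field_simp
        have a4 : q * Complex.arg (1 - conj ((ε : ℂ) * Complex.I)) ≤ p / 2 := by
          rw [← a3]
          exact mul_le_mul_of_nonneg_left a2 hq.le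
        have a5 : 3 < Real.pi := Real.pi_gt_three
        nlinarith
      refine ⟨F p q ((ε : ℂ) * Complex.I), ⟨him, im_lt hp hq i1⟩, _, ⟨i1, him⟩, rfl⟩
    · rintro w ⟨hw, hw1, hw2⟩
      have h2 : w ∈ F p q '' D p q := closedImage hp hq (closure_mono (image_mono U0D) hw)
      obtain ⟨X, hX, rfl⟩ := h2
      refine ⟨X, ⟨?_, hw1⟩, rfl⟩
      rcases lt_or_eq_of_le hX.1 with h | h
      · exact h
      · exfalso
        have h := h.symm
        have hc := c_lt hp hq
        have cX := hX.2.2.2 h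
        rcases lt_or_gt_of_ne (re_ne h hX.2.1) with h3 | h3
        · rw [real_im_neg h h3] at hw2
          exact lt_irrefl _ hw2
        · rw [real_im h (by linarith) h3] at hw1
          exact lt_irrefl _ hw1
  have hWD : W ⊆ F p q '' D p q := hWsub.trans (image_mono U0D)
  refine closedImage hp hq (closure_mono hWD ?_)
  have ht : Tendsto (fun t : ℝ => η + ((t * (p * Real.pi / 2 - η.im) : ℝ) : ℂ) * Complex.I)
      (𝓝[>] 0) (𝓝 η) := by
    have : Continuous (fun t : ℝ => η + ((t * (p * Real.pi / 2 - η.im) : ℝ) : ℂ) * Complex.I) := by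
      fun_prop
    have h2 := this.tendsto 0
    simp only [zero_mul, Complex.ofReal_zero, add_zero] at h2
    exact h2.mono_left nhdsWithin_le_nhds
  refine mem_closure_of_tendsto ht ?_
  filter_upwards [Ioo_mem_nhdsGT (zero_lt_one' ℝ)] with t ht
  have hpp : 0 < p * Real.pi := by positivity
  constructor
  · have : 0 < η.im + t * (p * Real.pi / 2 - η.im) := by nlinarith [ht.1, ht.2]
    simpa using this
  · have : η.im + t * (p * Real.pi / 2 - η.im) < p * Real.pi := by nlinarith [ht.1, ht.2]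
    simpa using this

/-- projection to the strip -/
noncomputable def clamp (p : ℝ) (η : ℂ) : ℂ := ⟨η.re, max 0 (min (p * Real.pi) η.im)⟩

lemma clamp_cont (p : ℝ) : Continuous (clamp p) := by
  have : clamp p = fun η : ℂ => ((η.re : ℝ) : ℂ) + ((max 0 (min (p * Real.pi) η.im) : ℝ) : ℂ) *
      Complex.I := by
    funext η
    apply Complex.ext <;> simp [clamp]
  rw [this]
  fun_prop

lemma clamp_eq {p : ℝ} {η : ℂ} (h0 : 0 ≤ η.im) (h1 : η.im ≤ p * Real.pi) : clamp p η = η := by
  apply Complex.ext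
  · rfl
  · simp [clamp, h0, h1]

theorem exists_inv {p q : ℝ} (hp : 0 < p) (hq : 0 < q) : ∃ Z : ℂ → ℂ, Continuous Z ∧
    ∀ η : ℂ, 0 ≤ η.im → η.im ≤ p * Real.pi → Z η ∈ D p q ∧ F p q (Z η) = η := by
  have hpi := Real.pi_pos
  have hpp : 0 < p * Real.pi := by positivity
  have hex : ∀ η : ℂ, ∃ X : ℂ, 0 ≤ η.im → η.im ≤ p * Real.pi → X ∈ D p q ∧ F p q X = η := by
    intro η
    by_cases h : 0 ≤ η.im ∧ η.im ≤ p * Real.pi
    · obtain ⟨X, hX, h3⟩ := surj hp hq h.1 h.2
      exact ⟨X, fun _ _ => ⟨hX, h3⟩⟩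
    · exact ⟨0, fun h1 h2 => absurd ⟨h1, h2⟩ h⟩
  choose g hg using hex
  set S : Set ℂ := {η : ℂ | 0 ≤ η.im ∧ η.im ≤ p * Real.pi} with hS
  have hcont : ContinuousOn g S := by
    intro η hη
    set M : ℝ := |η.re| + 1
    refine (compactK hp hq M).tendsto_nhds_of_unique_mapClusterPt ?_ ?_
    · have ho : IsOpen {w : ℂ | |w.re| < M} := isOpen_lt (by fun_prop) continuous_const
      have hm : {w : ℂ | |w.re| < M} ∈ 𝓝[S] η :=
        mem_nhdsWithin_of_mem_nhds (ho.mem_nhds (by simp [M]))
      filter_upwards [hm, self_mem_nhdsWithin] with w hw hwS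
      obtain ⟨a, b⟩ := hg w hwS.1 hwS.2
      exact ⟨a, by rw [b]; exact le_of_lt hw⟩
    · intro Y hY hcl
      obtain ⟨a, b⟩ := hg η hη.1 hη.2
      refine injD hp hq hY.1 a ?_
      rw [b]
      -- `F Y = η`
      have hYc : ContinuousWithinAt (F p q) (D p q) Y :=
        ((F_cont p q).mono (D_sub hp hq)) Y hY.1
      by_contra hne
      obtain ⟨U, V, hU, hV, hYU, hηV, hd⟩ := t2_separation hne
      have h1 : F p q ⁻¹' U ∈ 𝓝[D p q] Y := hYc (hU.mem_nhds hYU)
      rw [mem_nhdsWithin_iff_exists_mem_nhds_inter] at h1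
      obtain ⟨N, hN, hNs⟩ := h1
      have h2 : ∃ᶠ w in 𝓝[S] η, g w ∈ N := hcl.frequently hN
      have h3 : ∀ᶠ w in 𝓝[S] η, w ∈ V ∧ w ∈ S := by
        filter_upwards [mem_nhdsWithin_of_mem_nhds (hV.mem_nhds hηV), self_mem_nhdsWithin] with w
          hw hw2 using ⟨hw, hw2⟩
      obtain ⟨w, hw1, hw2, hw3⟩ := (h2.and_eventually h3).exists
      obtain ⟨c, d⟩ := hg w hw3.1 hw3.2
      have h4 : F p q (g w) ∈ U := hNs ⟨hw1, c⟩
      rw [d] at h4
      exact Set.disjoint_left.1 hd h4 hw2
  refine ⟨fun η => g (clamp p η), ?_, ?_⟩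
  · refine hcont.comp_continuous (clamp_cont p) ?_
    intro η
    change 0 ≤ (clamp p η).im ∧ (clamp p η).im ≤ p * Real.pi
    exact ⟨le_max_left _ _, max_le hpp.le (min_le_left _ _)⟩
  · intro η h0 h1
    simp only [clamp_eq h0 h1]
    exact hg η h0 h1

end Pool.Agent.Y183.BU
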