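import Pool.Agent.Y858.BU.Stm
import Pool.Agent.Y183.BU.Asy

/-!
Task MODEL of project BU (owner helper858): the model functions.
-/

set_option autoImplicit false

namespace Pool.Agent.Y183.BU

open Set Filter Topology MeasureTheory
open scoped ComplexConjugate ENNReal
open Pool.Agent.Y858.BU (ast Model S_model)

/-- the data -/
structure Dat (m : ℝ) (Z₁ Z₂ : ℂ → ℂ) : Prop where
  hm : 1 ≤ m
  c₁ : Continuous Z₁
  c₂ : Continuous Z₂
  h₁ : ∀ η : ℂ, 0 ≤ η.im → η.im ≤ 1 * Real.pi → Z₁ η ∈ D 1 m ∧ F 1 m (Z₁ η) = η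
  h₂ : ∀ η : ℂ, 0 ≤ η.im → η.im ≤ m * Real.pi → Z₂ η ∈ D m 1 ∧ F m 1 (Z₂ η) = η

variable {m : ℝ} {Z₁ Z₂ : ℂ → ℂ}

/-- the first function -/
noncomputable def UU (m la : ℝ) (Z₁ : ℂ → ℂ) (p : ℝ × ℝ) : ℝ :=
  (Real.log ‖Z₁ (em m la p)‖ - la) / m

/-- the second function -/
noncomputable def VV (m la : ℝ) (Z₂ : ℂ → ℂ) (p : ℝ × ℝ) : ℝ :=
  (Real.log ‖1 - Z₂ (em m la p)‖ - la) / m

/-- derivative of `log Z₁` -/
noncomputable def l₁ (m : ℝ) (Z₁ : ℂ → ℂ) (η : ℂ) : ℂ := (Z₁ η)⁻¹ * (F' 1 m (Z₁ η))⁻¹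

/-- derivative of `log (1 - Z₂)` -/
noncomputable def l₂ (m : ℝ) (Z₂ : ℂ → ℂ) (η : ℂ) : ℂ := (1 - Z₂ η)⁻¹ * (-(F' m 1 (Z₂ η))⁻¹)

lemma memU (h : Dat m Z₁ Z₂) (la : ℝ) {p : ℝ × ℝ} (hp : p.2 ∈ Icc 0 (Real.pi / m)) :
    0 ≤ (em m la p).im ∧ (em m la p).im ≤ 1 * Real.pi := by
  have hm := h.hm
  rw [em_im]
  refine ⟨mul_nonneg (by linarith) hp.1, ?_⟩
  have := hp.2
  rw [le_div_iff₀ (by linarith)] at this
  linarith

lemma memU' (h : Dat m Z₁ Z₂) (la : ℝ) {p : ℝ × ℝ} (hp : p.2 ∈ Ioo 0 (Real.pi / m)) :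
    0 < (em m la p).im ∧ (em m la p).im < 1 * Real.pi := by
  have hm := h.hm
  rw [em_im]
  refine ⟨mul_pos (by linarith) hp.1, ?_⟩
  have := hp.2
  rw [lt_div_iff₀ (by linarith)] at this
  linarith

lemma memV (h : Dat m Z₁ Z₂) (la : ℝ) {p : ℝ × ℝ} (hp : p.2 ∈ Icc 0 Real.pi) :
    0 ≤ (em m la p).im ∧ (em m la p).im ≤ m * Real.pi := by
  have hm := h.hm
  rw [em_im]
  exact ⟨mul_nonneg (by linarith) hp.1, mul_le_mul_of_nonneg_left hp.2 (by linarith)⟩

lemma memV' (h : Dat m Z₁ Z₂) (la : ℝ) {p : ℝ × ℝ} (hp : p.2 ∈ Ioo 0 Real.pi) :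
    0 < (em m la p).im ∧ (em m la p).im < m * Real.pi := by
  have hm := h.hm
  rw [em_im]
  exact ⟨mul_pos (by linarith) hp.1, mul_lt_mul_of_pos_left hp.2 (by linarith)⟩

lemma mpos (h : Dat m Z₁ Z₂) : 0 < m := by linarith [h.hm]

lemma one_sub_ne' (h : Dat m Z₁ Z₂) {X : ℂ} (hX : X ∈ D m 1) : 1 - X ≠ 0 :=
  sub_ne_zero.2 (Ne.symm (D_ne_one (mpos h) one_pos hX))

lemma contU (h : Dat m Z₁ Z₂) (la : ℝ) :
    ContinuousOn (UU m la Z₁) (univ ×ˢ Icc 0 (Real.pi / m)) := by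
  unfold UU
  refine ContinuousOn.div_const (ContinuousOn.sub (ContinuousOn.log ?_ ?_) continuousOn_const) _
  · exact (h.c₁.comp (em_cont m la)).norm.continuousOn
  · rintro p ⟨_, hp⟩
    obtain ⟨a, b⟩ := memU h la hp
    exact (norm_pos_iff.2 (h.h₁ _ a b).1.2.1).ne'

lemma contV (h : Dat m Z₁ Z₂) (la : ℝ) :
    ContinuousOn (VV m la Z₂) (univ ×ˢ Icc 0 Real.pi) := by
  unfold VV
  refine ContinuousOn.div_const (ContinuousOn.sub (ContinuousOn.log ?_ ?_) continuousOn_const) _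
  · exact (continuous_const.sub (h.c₂.comp (em_cont m la))).norm.continuousOn
  · rintro p ⟨_, hp⟩
    obtain ⟨a, b⟩ := memV h la hp
    exact (norm_pos_iff.2 (one_sub_ne' h (h.h₂ _ a b).1)).ne'

lemma relU (h : Dat m Z₁ Z₂) (la : ℝ) {p : ℝ × ℝ} (hp : p.2 ∈ Icc 0 (Real.pi / m)) :
    Real.log ‖Z₁ (em m la p)‖ + m * Real.log ‖1 - Z₁ (em m la p)‖ = m * p.1 + la := by
  obtain ⟨a, b⟩ := memU h la hp
  have e := congrArg Complex.re (h.h₁ _ a b).2
  rw [F_re, em_re] at e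
  linarith

lemma relV (h : Dat m Z₁ Z₂) (la : ℝ) {p : ℝ × ℝ} (hp : p.2 ∈ Icc 0 Real.pi) :
    Real.log ‖1 - Z₂ (em m la p)‖ + m * Real.log ‖1 - (1 - Z₂ (em m la p))‖ = m * p.1 + la := by
  obtain ⟨a, b⟩ := memV h la hp
  have e := congrArg Complex.re (h.h₂ _ a b).2
  rw [F_re, em_re] at e
  rw [sub_sub_cancel]
  linarith

lemma derU (h : Dat m Z₁ Z₂) (la : ℝ) {p : ℝ × ℝ} (hp : p.2 ∈ Ioo 0 (Real.pi / m)) :
    0 < (Z₁ (em m la p)).im ∧
    HasDerivAt (fun η => Complex.log (Z₁ η)) (l₁ m Z₁ (em m la p)) (em m la p) := by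
  obtain ⟨a, b⟩ := memU' h la hp
  obtain ⟨c, d⟩ := Z_der one_pos (mpos h) h.c₁ h.h₁ a b
  refine ⟨c, ?_⟩
  exact (Complex.hasDerivAt_log (mem_slit c)).comp _ d

lemma derV (h : Dat m Z₁ Z₂) (la : ℝ) {p : ℝ × ℝ} (hp : p.2 ∈ Ioo 0 Real.pi) :
    0 < (Z₂ (em m la p)).im ∧
    HasDerivAt (fun η => Complex.log (1 - Z₂ η)) (l₂ m Z₂ (em m la p)) (em m la p) := by
  obtain ⟨a, b⟩ := memV' h la hp
  obtain ⟨c, d⟩ := Z_der (mpos h) one_pos h.c₂ h.h₂ a b
  refine ⟨c, ?_⟩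
  exact (Complex.hasDerivAt_log (mem_slit' c)).comp (em m la p) (d.const_sub 1)

lemma UU_eq (m la : ℝ) (Z₁ : ℂ → ℂ) :
    (fun x : ℝ × ℝ => ((Complex.log (Z₁ (em m la x))).re - la) / m) = UU m la Z₁ := by
  funext x
  simp [UU, Complex.log_re]

lemma VV_eq (m la : ℝ) (Z₂ : ℂ → ℂ) :
    (fun x : ℝ × ℝ => ((Complex.log (1 - Z₂ (em m la x))).re - la) / m) = VV m la Z₂ := by
  funext x
  simp [VV, Complex.log_re]

/-- gluing -/
lemma glue (h : Dat m Z₁ Z₂) {la : ℝ}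
    (hla : la = Real.log (1 / (1 + m)) + m * Real.log (1 - 1 / (1 + m))) {s : ℝ} (hs : 0 ≤ s) :
    UU m la Z₁ (s, 0) = VV m la Z₂ (s, 0) := by
  have hm := mpos h
  have hpi := Real.pi_pos
  have p1 : ((s, 0) : ℝ × ℝ).2 ∈ Icc 0 (Real.pi / m) := ⟨le_rfl, by positivity⟩
  have p2 : ((s, 0) : ℝ × ℝ).2 ∈ Icc 0 Real.pi := ⟨le_rfl, hpi.le⟩
  obtain ⟨a, b⟩ := memU h la p1
  obtain ⟨a', b'⟩ := memV h la p2
  obtain ⟨c, d⟩ := h.h₁ _ a b
  obtain ⟨c', d'⟩ := h.h₂ _ a' b'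
  set X := Z₁ (em m la (s, 0)) with hX
  have himη : (em m la (s, 0)).im = 0 := by rw [em_im]; simp
  have hη : conj (em m la (s, 0)) = em m la (s, 0) := Complex.conj_eq_iff_im.2 himη
  have key : F m 1 (1 - conj X) = em m la (s, 0) := by rw [F_symm, d, hη]
  have hmem : (1 - conj X) ∈ D m 1 := by
    refine ⟨by simpa using c.1, ?_, ?_, ?_⟩
    · intro h0
      apply D_ne_one one_pos hm c
      have h1 : conj X = 1 := by linear_combination -h0
      have := congrArg conj h1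
      simpa using this
    · rw [key, himη]
    · intro h0
      have hi : X.im = 0 := by simpa using h0
      have hr : X.re ≤ 1 / (1 + m) := c.2.2.2 hi
      have hr1 : X.re < 1 := by
        refine lt_of_le_of_lt hr ?_
        rw [div_lt_one (by linarith)]
        linarith
      have hpos : 0 < X.re := by
        rcases lt_or_gt_of_ne (re_ne hi c.2.1) with h3 | h3
        · exfalso
          have e := real_im_neg (p := 1) (q := m) hi h3
          rw [d, himη] at e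
          linarith
        · exact h3
      have hge : 1 / (1 + m) ≤ X.re := by
        by_contra hlt
        push Not at hlt
        have hcc : 1 / (1 + m) ∈ Ioc (0 : ℝ) (1 / (1 + m)) := ⟨by positivity, le_rfl⟩
        have e := mono_pos (p := 1) (q := m) one_pos hm ⟨hpos, hr⟩ hcc hlt
        have e2 := real_re (p := 1) (q := m) hi
        rw [d, em_re, abs_of_pos hpos, abs_of_pos (by linarith)] at e2
        simp only at e e2
        have : 0 ≤ m * s := by positivity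
        linarith
      have : (1 - conj X).re = 1 - X.re := by simp
      rw [this]
      have e3 : m / (m + 1) = 1 - 1 / (1 + m) := by field_simp; ring
      linarith
  have hZ : Z₂ (em m la (s, 0)) = 1 - conj X := injD hm one_pos c' hmem (by rw [d', key])
  unfold UU VV
  rw [hZ, sub_sub_cancel, RCLike.norm_conj]

lemma asyU0 (h : Dat m Z₁ Z₂) (la : ℝ) {ε : ℝ} (hε : 0 < ε) : ∃ s₀ : ℝ, ∀ p : ℝ × ℝ,
    p.1 ≤ s₀ → p.2 ∈ Icc 0 (Real.pi / m) → |UU m la Z₁ p - p.1| ≤ ε := by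
  have hm := mpos h
  obtain ⟨M, hM⟩ := asym_zero hm (mul_pos hε hm)
  refine ⟨(-M - la) / m, fun p hp1 hp2 => ?_⟩
  obtain ⟨a, b⟩ := memU h la hp2
  rw [le_div_iff₀ hm] at hp1
  have h2 := hM _ (h.h₁ _ a b).1 (by rw [relU h la hp2]; linarith)
  rw [relU h la hp2] at h2
  have e : UU m la Z₁ p - p.1 = (Real.log ‖Z₁ (em m la p)‖ - (m * p.1 + la)) / m := by
    unfold UU
    field_simp
    ring
  rw [e, abs_div, abs_of_pos hm, div_le_iff₀ hm]
  exact h2

lemma asyU1 (h : Dat m Z₁ Z₂) (la : ℝ) {ε : ℝ} (hε : 0 < ε) : ∃ s₀ : ℝ, ∀ p : ℝ × ℝ,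
    s₀ ≤ p.1 → p.2 ∈ Icc 0 (Real.pi / m) → |UU m la Z₁ p - (p.1 - la) / (m + 1)| ≤ ε := by
  have hm := mpos h
  obtain ⟨M, hM⟩ := asym_inf hm (mul_pos hε hm)
  refine ⟨(M - la) / m, fun p hp1 hp2 => ?_⟩
  obtain ⟨a, b⟩ := memU h la hp2
  obtain ⟨c, d⟩ := h.h₁ _ a b
  rw [div_le_iff₀ hm] at hp1
  have h2 := hM _ c.2.1 (D_ne_one one_pos hm c) (by rw [relU h la hp2]; linarith)
  rw [relU h la hp2] at h2
  have e : UU m la Z₁ p - (p.1 - la) / (m + 1) =
      (Real.log ‖Z₁ (em m la p)‖ - (m * p.1 + la) / (m + 1)) / m := by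
    unfold UU
    field_simp
    ring
  rw [e, abs_div, abs_of_pos hm, div_le_iff₀ hm]
  exact h2

lemma asyV1 (h : Dat m Z₁ Z₂) (la : ℝ) {ε : ℝ} (hε : 0 < ε) : ∃ s₀ : ℝ, ∀ p : ℝ × ℝ,
    s₀ ≤ p.1 → p.2 ∈ Icc 0 Real.pi → |VV m la Z₂ p - (p.1 - la) / (m + 1)| ≤ ε := by
  have hm := mpos h
  obtain ⟨M, hM⟩ := asym_inf hm (mul_pos hε hm)
  refine ⟨(M - la) / m, fun p hp1 hp2 => ?_⟩
  obtain ⟨a, b⟩ := memV h la hp2
  obtain ⟨c, d⟩ := h.h₂ _ a b
  rw [div_le_iff₀ hm] at hp1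
  have n1 : 1 - Z₂ (em m la p) ≠ 1 := by
    intro h3
    exact c.2.1 (by linear_combination -h3)
  have h2 := hM _ (one_sub_ne' h c) n1 (by rw [relV h la hp2]; linarith)
  rw [relV h la hp2] at h2
  have e : VV m la Z₂ p - (p.1 - la) / (m + 1) =
      (Real.log ‖1 - Z₂ (em m la p)‖ - (m * p.1 + la) / (m + 1)) / m := by
    unfold VV
    field_simp
    ring
  rw [e, abs_div, abs_of_pos hm, div_le_iff₀ hm]
  exact h2

/-- lower bound for `U` -/
lemma lowU (h : Dat m Z₁ Z₂) (la S : ℝ) : ∃ C : ℝ, ∀ p : ℝ × ℝ,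
    S ≤ p.1 → p.2 ∈ Icc 0 (Real.pi / m) → C ≤ UU m la Z₁ p := by
  have hm := mpos h
  set M : ℝ := -(m * S + la) with hM
  set r : ℝ := min 1 (Real.exp (-(M + m * Real.log 2) / 1)) with hr
  have r0 : 0 < r := by positivity
  refine ⟨(Real.log r - la) / m, fun p hp1 hp2 => ?_⟩
  obtain ⟨a, b⟩ := memU h la hp2
  obtain ⟨c, d⟩ := h.h₁ _ a b
  have h3 : r ≤ ‖Z₁ (em m la p)‖ := by
    refine norm_ge one_pos hm M c.2.1 ?_ (D_ne_one one_pos hm c)
    rw [d, em_re, hM]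
    nlinarith
  unfold UU
  rw [div_le_div_iff_of_pos_right hm]
  linarith [Real.log_le_log r0 h3]

/-- upper bound for `U` -/
lemma upU (h : Dat m Z₁ Z₂) (la S : ℝ) : ∃ C : ℝ, ∀ p : ℝ × ℝ,
    p.1 ≤ S → p.2 ∈ Icc 0 (Real.pi / m) → UU m la Z₁ p ≤ C := by
  have hm := mpos h
  set M : ℝ := m * S + la with hM
  refine ⟨((M - m * Real.log (del 1 m)) / 1 - la) / m, fun p hp1 hp2 => ?_⟩
  obtain ⟨a, b⟩ := memU h la hp2
  obtain ⟨c, d⟩ := h.h₁ _ a b
  have h3 := norm_le one_pos hm M (del_pos one_pos hm) c.2.1 (by rw [d, em_re, hM]; nlinarith)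
    (del_le one_pos hm c)
  rw [← Real.log_le_iff_le_exp (norm_pos_iff.2 c.2.1)] at h3
  unfold UU
  rw [div_le_div_iff_of_pos_right hm]
  linarith

/-- lower bound for `V` -/
lemma lowV (h : Dat m Z₁ Z₂) (la : ℝ) : ∃ C : ℝ, ∀ p : ℝ × ℝ,
    p.2 ∈ Icc 0 Real.pi → C ≤ VV m la Z₂ p := by
  have hm := mpos h
  refine ⟨(Real.log (del m 1) - la) / m, fun p hp2 => ?_⟩
  obtain ⟨a, b⟩ := memV h la hp2
  obtain ⟨c, d⟩ := h.h₂ _ a b
  have h3 := del_le hm one_pos c
  unfold VV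
  rw [div_le_div_iff_of_pos_right hm]
  linarith [Real.log_le_log (del_pos hm one_pos) h3]

/-- upper bound for `V` -/
lemma upV (h : Dat m Z₁ Z₂) (la S : ℝ) : ∃ C : ℝ, ∀ p : ℝ × ℝ,
    p.1 ≤ S → p.2 ∈ Icc 0 Real.pi → VV m la Z₂ p ≤ C := by
  have hm := mpos h
  set M : ℝ := m * S + la with hM
  refine ⟨(Real.log (1 + Real.exp ((M - 1 * Real.log (del m 1)) / m)) - la) / m,
    fun p hp1 hp2 => ?_⟩
  obtain ⟨a, b⟩ := memV h la hp2
  obtain ⟨c, d⟩ := h.h₂ _ a b
  have h3 := norm_le hm one_pos M (del_pos hm one_pos) c.2.1 (by rw [d, em_re, hM]; nlinarith)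
    (del_le hm one_pos c)
  have h4 : ‖1 - Z₂ (em m la p)‖ ≤ 1 + Real.exp ((M - 1 * Real.log (del m 1)) / m) := by
    refine (norm_sub_le _ _).trans ?_
    simpa using h3
  unfold VV
  rw [div_le_div_iff_of_pos_right hm]
  linarith [Real.log_le_log (norm_pos_iff.2 (one_sub_ne' h c)) h4]

lemma arg_upper {X : ℂ} (hX : 0 < X.im) : 0 < Complex.arg X ∧ Complex.arg X < Real.pi := by
  constructor
  · refine lt_of_le_of_ne (Complex.arg_nonneg_iff.2 hX.le) ?_
    intro h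
    rw [eq_comm, Complex.arg_eq_zero_iff] at h
    linarith [h.2]
  · refine lt_of_le_of_ne (Complex.arg_le_pi X) ?_
    intro h
    rw [Complex.arg_eq_pi_iff] at h
    linarith [h.2]

/-- the energy bound -/
lemma energy (h : Dat m Z₁ Z₂) (la : ℝ) {ε : ℝ} (hε : 0 < ε) : ∃ s₀ : ℝ, ∀ s₁ s₂ : ℝ,
    s₁ ≤ -s₀ → s₀ ≤ s₂ →
    (∫⁻ p in Ioo s₁ s₂ ×ˢ Ioo 0 (Real.pi / m),
        ENNReal.ofReal (Complex.normSq (l₁ m Z₁ (em m la p)))) +
      (∫⁻ p in Iio s₂ ×ˢ Ioo 0 Real.pi,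
        ENNReal.ofReal (Complex.normSq (l₂ m Z₂ (em m la p)))) ≤
    ENNReal.ofReal (Real.pi / m * ((s₂ - la) / (m + 1) - s₁ + ε)) := by
  have hm := mpos h
  have hpi := Real.pi_pos
  obtain ⟨S1, hS1⟩ := asyU0 h la (half_pos (half_pos hε))
  obtain ⟨S2, hS2⟩ := asyU1 h la (half_pos (half_pos hε))
  obtain ⟨S3, hS3⟩ := asyV1 h la (half_pos (half_pos hε))
  obtain ⟨C1, hC1⟩ := lowU h la S1
  obtain ⟨C2, hC2⟩ := upU h la S2
  obtain ⟨C3, hC3⟩ := lowV h la
  obtain ⟨C4, hC4⟩ := upV h la S3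
  refine ⟨max (max (-C1) (-C3)) (max ((m + 1) * C2 + la) ((m + 1) * C4 + la)),
    fun s₁ s₂ h1 h2 => ?_⟩
  have k1 : s₁ ≤ C1 := by
    have := (le_max_left (-C1) (-C3)).trans (le_max_left _ (max ((m + 1) * C2 + la)
      ((m + 1) * C4 + la)))
    linarith
  have k3 : s₁ ≤ C3 := by
    have := (le_max_right (-C1) (-C3)).trans (le_max_left _ (max ((m + 1) * C2 + la)
      ((m + 1) * C4 + la)))
    linarith
  have k2 : C2 ≤ (s₂ - la) / (m + 1) := by
    have := (le_max_left ((m + 1) * C2 + la) ((m + 1) * C4 + la)).trans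
      (le_max_right (max (-C1) (-C3)) _)
    rw [le_div_iff₀ (by linarith)]
    linarith
  have k4 : C4 ≤ (s₂ - la) / (m + 1) := by
    have := (le_max_right ((m + 1) * C2 + la) ((m + 1) * C4 + la)).trans
      (le_max_right (max (-C1) (-C3)) _)
    rw [le_div_iff₀ (by linarith)]
    linarith
  set RU : Set (ℝ × ℝ) := Ioo s₁ s₂ ×ˢ Ioo 0 (Real.pi / m) with hRU
  set RV : Set (ℝ × ℝ) := Iio s₂ ×ˢ Ioo 0 Real.pi with hRV
  have mRU : MeasurableSet RU := measurableSet_Ioo.prod measurableSet_Ioo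
  have mRV : MeasurableSet RV := measurableSet_Iio.prod measurableSet_Ioo
  set LU : ℂ → ℂ := fun η => Complex.log (Z₁ η) with hLU
  set LV : ℂ → ℂ := fun η => Complex.log (1 - Z₂ η) with hLV
  have dU : ∀ p ∈ RU, HasDerivAt LU (l₁ m Z₁ (em m la p)) (em m la p) := fun p hp =>
    (derU h la hp.2).2
  have dV : ∀ p ∈ RV, HasDerivAt LV (l₂ m Z₂ (em m la p)) (em m la p) := fun p hp =>
    (derV h la hp.2).2
  have fU : ∀ p, (Phi 1 LU m la p).1 = UU m la Z₁ p := fun p => congrFun (UU_eq m la Z₁) p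
  have fV : ∀ p, (Phi (-1) LV m la p).1 = VV m la Z₂ p := fun p => congrFun (VV_eq m la Z₂) p
  have mem1 : ∀ p ∈ RU, p.2 ∈ Icc 0 (Real.pi / m) := fun p hp => Ioo_subset_Icc_self hp.2
  have mem2 : ∀ p ∈ RV, p.2 ∈ Icc 0 Real.pi := fun p hp => Ioo_subset_Icc_self hp.2
  -- injectivity
  have iU : InjOn (Phi 1 LU m la) RU := by
    intro x hx y hy hxy
    have e1 := congrArg Prod.fst hxy
    have e2 := congrArg Prod.snd hxy
    simp only [Phi, one_mul] at e1 e2
    have e3 : (LU (em m la x)).re = (LU (em m la y)).re := by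
      rw [div_left_inj' hm.ne'] at e1
      linarith
    have e4 : (LU (em m la x)).im = (LU (em m la y)).im := by
      rwa [div_left_inj' hm.ne'] at e2
    have e5 := congrArg Complex.exp (Complex.ext e3 e4)
    obtain ⟨a, b⟩ := memU h la (mem1 x hx)
    obtain ⟨a', b'⟩ := memU h la (mem1 y hy)
    obtain ⟨c, d⟩ := h.h₁ _ a b
    obtain ⟨c', d'⟩ := h.h₁ _ a' b'
    simp only [hLU] at e5
    rw [Complex.exp_log c.2.1, Complex.exp_log c'.2.1] at e5
    exact em_inj hm.ne' (by rw [← d, ← d', e5])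
  have iV : InjOn (Phi (-1) LV m la) RV := by
    intro x hx y hy hxy
    have e1 := congrArg Prod.fst hxy
    have e2 := congrArg Prod.snd hxy
    simp only [Phi, neg_mul, one_mul, neg_inj] at e1 e2
    have e3 : (LV (em m la x)).re = (LV (em m la y)).re := by
      rw [div_left_inj' hm.ne'] at e1
      linarith
    have e4 : (LV (em m la x)).im = (LV (em m la y)).im := by
      rwa [div_left_inj' hm.ne'] at e2
    have e5 := congrArg Complex.exp (Complex.ext e3 e4)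
    obtain ⟨a, b⟩ := memV h la (mem2 x hx)
    obtain ⟨a', b'⟩ := memV h la (mem2 y hy)
    obtain ⟨c, d⟩ := h.h₂ _ a b
    obtain ⟨c', d'⟩ := h.h₂ _ a' b'
    simp only [hLV] at e5
    rw [Complex.exp_log (one_sub_ne' h c), Complex.exp_log (one_sub_ne' h c')] at e5
    have e6 : Z₂ (em m la x) = Z₂ (em m la y) := by linear_combination -e5
    exact em_inj hm.ne' (by rw [← d, ← d', e6])
  rw [energy_eq 1 (by simp) hm.ne' mRU dU iU, energy_eq (-1) (by simp) hm.ne' mRV dV iV]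
  -- disjointness
  have hdis : Disjoint (Phi 1 LU m la '' RU) (Phi (-1) LV m la '' RV) := by
    rw [Set.disjoint_left]
    rintro _ ⟨x, hx, rfl⟩ ⟨y, hy, hxy⟩
    have e1 := congrArg Prod.fst hxy
    have e2 := congrArg Prod.snd hxy
    simp only [Phi, neg_mul, one_mul] at e1 e2
    have e3 : (LV (em m la y)).re = (LU (em m la x)).re := by
      rw [div_left_inj' hm.ne'] at e1
      linarith
    have e4 : -(LV (em m la y)).im = (LU (em m la x)).im := by
      rwa [← neg_div, div_left_inj' hm.ne'] at e2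
    obtain ⟨a, b⟩ := memU' h la hx.2
    obtain ⟨a', b'⟩ := memV' h la hy.2
    obtain ⟨c, d⟩ := h.h₁ _ a.le b.le
    obtain ⟨c', d'⟩ := h.h₂ _ a'.le b'.le
    have e5 : LU (em m la x) = conj (LV (em m la y)) := by
      apply Complex.ext
      · rw [Complex.conj_re, e3]
      · rw [Complex.conj_im, e4]
    have e6 := congrArg Complex.exp e5
    rw [Complex.exp_conj] at e6
    simp only [hLU, hLV] at e6
    rw [Complex.exp_log c.2.1, Complex.exp_log (one_sub_ne' h c')] at e6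
    have e7 : Z₁ (em m la x) = 1 - conj (Z₂ (em m la y)) := by simpa using e6
    have e8 := F_symm m 1 (Z₂ (em m la y))
    rw [← e7, d, d'] at e8
    have e9 := congrArg Complex.im e8
    rw [Complex.conj_im] at e9
    linarith
  rw [← measure_union hdis (measurable_image_of_fderivWithin mRV
    (fun p hp => (Phi_der (-1) hm.ne' (dV p hp)).hasFDerivWithinAt) iV)]
  have hsub : Phi 1 LU m la '' RU ∪ Phi (-1) LV m la '' RV ⊆
      Ioo (s₁ - ε / 2) ((s₂ - la) / (m + 1) + ε / 2) ×ˢ Ioo 0 (Real.pi / m) := by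
    rintro _ (⟨p, hp, rfl⟩ | ⟨p, hp, rfl⟩)
    · refine ⟨?_, ?_⟩
      · rw [fU]
        constructor
        · rcases le_total p.1 S1 with h3 | h3
          · have := (abs_le.1 (hS1 p h3 (mem1 p hp))).1
            have := hp.1.1
            linarith
          · have := hC1 p h3 (mem1 p hp)
            linarith
        · rcases le_total S2 p.1 with h3 | h3
          · have h4 := (abs_le.1 (hS2 p h3 (mem1 p hp))).2
            have h5 := hp.1.2
            have h6 : (p.1 - la) / (m + 1) < (s₂ - la) / (m + 1) := by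
              rw [div_lt_div_iff_of_pos_right (by linarith)]
              linarith
            linarith
          · have := hC2 p h3 (mem1 p hp)
            linarith
      · have h3 := arg_upper (derU h la hp.2).1
        simp only [Phi, one_mul, hLU, Complex.log_im]
        exact ⟨div_pos h3.1 hm, by rw [div_lt_div_iff_of_pos_right hm]; exact h3.2⟩
    · refine ⟨?_, ?_⟩
      · rw [fV]
        constructor
        · have := hC3 p (mem2 p hp)
          linarith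
        · rcases le_total S3 p.1 with h3 | h3
          · have h4 := (abs_le.1 (hS3 p h3 (mem2 p hp))).2
            have h5 : p.1 < s₂ := hp.1
            have h6 : (p.1 - la) / (m + 1) < (s₂ - la) / (m + 1) := by
              rw [div_lt_div_iff_of_pos_right (by linarith)]
              linarith
            linarith
          · have := hC4 p h3 (mem2 p hp)
            linarith
      · have h2 := (derV h la hp.2).1
        have h3 := arg_upper (X := conj (1 - Z₂ (em m la p))) (by simpa using h2)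
        have h4 : (1 - Z₂ (em m la p)).arg ≠ Real.pi := by
          intro h5
          rw [Complex.arg_eq_pi_iff] at h5
          have := h5.2
          simp at this
          linarith
        rw [Complex.arg_conj, if_neg h4] at h3
        simp only [Phi, neg_mul, one_mul, hLV, Complex.log_im]
        rw [← neg_div]
        exact ⟨div_pos h3.1 hm, by rw [div_lt_div_iff_of_pos_right hm]; exact h3.2⟩
  refine (measure_mono hsub).trans ?_
  rw [Measure.volume_eq_prod, Measure.prod_prod, Real.volume_Ioo, Real.volume_Ioo,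
    ← ENNReal.ofReal_mul' (by rw [sub_zero]; positivity)]
  refine ENNReal.ofReal_le_ofReal (le_of_eq ?_)
  ring

lemma log_ast {k : ℕ} (hk : 1 ≤ k) : Real.log (ast k) =
    Real.log (1 / (1 + (k : ℝ))) + k * Real.log (1 - 1 / (1 + (k : ℝ))) := by
  have hk0 : (0 : ℝ) < k := by exact_mod_cast (by omega : 0 < k)
  have e1 : 1 - 1 / (1 + (k : ℝ)) = k / (k + 1) := by field_simp; ring
  have e2 : ast k = (1 / (1 + (k : ℝ))) * (k / (k + 1)) ^ k := by
    unfold ast
    rw [div_pow, pow_succ]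
    field_simp
    ring
  rw [e1, e2, Real.log_mul (by positivity) (by positivity), Real.log_pow]

/-- task MODEL -/
theorem t : S_model := by
  intro k hk
  have hk1 : (1 : ℝ) ≤ k := by exact_mod_cast hk
  have hk0 : (0 : ℝ) < k := by linarith
  obtain ⟨Z₁, c₁, h₁⟩ := exists_inv (p := 1) (q := (k : ℝ)) one_pos hk0
  obtain ⟨Z₂, c₂, h₂⟩ := exists_inv (p := (k : ℝ)) (q := 1) hk0 one_pos
  have h : Dat (k : ℝ) Z₁ Z₂ := ⟨hk1, c₁, c₂, h₁, h₂⟩
  set la := Real.log (ast k) with hla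
  have mF' : ∀ p q : ℝ, Measurable (F' p q) := by
    intro p q
    unfold F'
    fun_prop
  refine ⟨fun s t => UU k la Z₁ (s, t), fun s t => VV k la Z₂ (s, t),
    fun s t => Complex.normSq (l₁ k Z₁ (em k la (s, t))),
    fun s t => Complex.normSq (l₂ k Z₂ (em k la (s, t))), ?_⟩
  exact {
    contU := contU h la
    contV := contV h la
    glue := fun s hs => glue h (log_ast hk) hs
    derU := by
      intro s t ht
      have h1 := (der_pair hk0.ne' (derU h la (p := (s, t)) ht).2).1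
      rw [UU_eq] at h1
      refine ⟨(l₁ k Z₁ (em k la (s, t))).re, -(l₁ k Z₁ (em k la (s, t))).im, h1, ?_⟩
      rw [Complex.normSq_apply]
      exact le_of_eq (by ring)
    derV := by
      intro s t ht
      have h1 := (der_pair hk0.ne' (derV h la (p := (s, t)) ht).2).1
      rw [VV_eq] at h1
      refine ⟨(l₂ k Z₂ (em k la (s, t))).re, -(l₂ k Z₂ (em k la (s, t))).im, h1, ?_⟩
      rw [Complex.normSq_apply]
      exact le_of_eq (by ring)
    measU := by
      have m1 : Measurable (l₁ (k : ℝ) Z₁) :=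
        c₁.measurable.inv.mul ((mF' 1 k).comp c₁.measurable).inv
      exact Complex.continuous_normSq.measurable.comp (m1.comp (em_cont _ _).measurable)
    measV := by
      have m1 : Measurable (l₂ (k : ℝ) Z₂) :=
        (measurable_const.sub c₂.measurable).inv.mul ((mF' k 1).comp c₂.measurable).inv.neg
      exact Complex.continuous_normSq.measurable.comp (m1.comp (em_cont _ _).measurable)
    asyU0 := by
      intro η hη
      obtain ⟨s₀, h0⟩ := asyU0 h la hη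
      exact ⟨s₀, fun s hs t ht => h0 (s, t) hs ht⟩
    asyU1 := by
      intro η hη
      obtain ⟨s₀, h0⟩ := asyU1 h la hη
      exact ⟨s₀, fun s hs t ht => h0 (s, t) hs ht⟩
    asyV1 := by
      intro η hη
      obtain ⟨s₀, h0⟩ := asyV1 h la hη
      exact ⟨s₀, fun s hs t ht => h0 (s, t) hs ht⟩
    energy := fun η hη => energy h la hη }

end Pool.Agent.Y183.BU
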